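import Pool.Agent.H51.L1Final

set_option autoImplicit false

namespace Pool.Agent.Results.MP_349fe0_an.FinitePowers

open Set Filter Topology Metric
open scoped Ordinal ENNReal
open Pool.Agent.H51.L1Final

/-- The real Banach space of absolutely summable sequences. -/
abbrev ellOne : Type := lp (fun _ : ℕ => ℝ) 1

/-- For every `ε > 0` there is a natural number `k` such that for every ordinal `γ ≥ ω^k` there is
a (nonlinear) map `f` from `ℓ₁` to the Banach space `C([0,γ])` and constants `a > 0` and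
`b ≤ (1+ε)a` with `a d(x,y) ≤ d(f x, f y) ≤ b d(x,y)` for all `x, y`. -/
theorem result : ∀ ε : ℝ, 0 < ε → ∃ k : ℕ, ∀ γ : Ordinal.{0}, ω ^ k ≤ γ →
    ∃ (f : ellOne → C(Set.Iic γ, ℝ)) (a b : ℝ), 0 < a ∧ b ≤ (1 + ε) * a ∧
      ∀ x y : ellOne, a * dist x y ≤ dist (f x) (f y) ∧ dist (f x) (f y) ≤ b * dist x y := by
  intro ε hε
  obtain ⟨θ, hθ0, hθ1, hθε⟩ : ∃ θ : ℝ, 0 < θ ∧ θ ≤ 1/6 ∧ 1 ≤ (1 + ε) * (1 - 3*θ) := by
    refine ⟨min (1/6) (ε/(3*(1+ε))), by positivity, min_le_left _ _, ?_⟩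
    have h1 : min (1/6) (ε/(3*(1+ε))) ≤ ε/(3*(1+ε)) := min_le_right _ _
    have h2 : (1+ε) * (3 * (ε/(3*(1+ε)))) = ε := by field_simp
    have h3 : (1+ε) * (3 * min (1/6) (ε/(3*(1+ε)))) ≤ (1+ε) * (3 * (ε/(3*(1+ε)))) := by
      apply mul_le_mul_of_nonneg_left _ (by linarith); linarith
    linarith
  obtain ⟨k, ψ, hc, hl, hcov⟩ :=
    Pool.Agent.H51.L1Embed.family lproj hθ0 (by linarith : θ < 1)
  refine ⟨k, fun Γ hΓ => ?_⟩
  have hcont : ∀ x : ellOne, Continuous (fun γ : Set.Iic Γ => ψ (min (γ : Ordinal.{0}) (ω^k)) x) :=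
    fun x => (Cont.continuous (hc x)).comp continuous_subtype_val
  refine ⟨fun x => ⟨_, hcont x⟩, 1 - 3*θ, 1, by linarith, by linarith, ?_⟩
  intro x y
  have hd : dist x y = ‖x - y‖ := dist_eq_norm x y
  constructor
  · obtain ⟨γ, hγ, h⟩ := hcov x y
    have h1 := ContinuousMap.dist_apply_le_dist
      (f := (⟨_, hcont x⟩ : C(Set.Iic Γ, ℝ))) (g := ⟨_, hcont y⟩) ⟨γ, hγ.trans hΓ⟩
    refine le_trans ?_ h1
    rw [hd, Real.dist_eq]
    refine h.trans (le_trans (le_abs_self _) ?_)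
    simp only [ContinuousMap.coe_mk]
    rw [min_eq_left hγ]
  · rw [one_mul, hd, ContinuousMap.dist_le (norm_nonneg _)]
    intro γ
    simp only [ContinuousMap.coe_mk]
    rw [Real.dist_eq]
    exact hl _ (min_le_right _ _) x y

end Pool.Agent.Results.MP_349fe0_an.FinitePowers
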